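import Mathlib
import Pool.Agent.H685R2.DIM.Ramsey
import Pool.Agent.H730R3.Ramsey

/-!
# A Ramsey statement for interleaved pairs of `M`-sets

Pairs `(A, i)` with `i ∈ A` are the incidences of the bipartite graph of all `M`-sets of `{0, …, N-1}`
versus its points.
-/

set_option autoImplicit false

namespace Pool.Agent.Helper25.UC

open Finset

/-- The data of an interleaved pair of `M`-sets, `z 0 < z 1 < …`, even and odd places. -/
def Col {κ : Type} (M : ℕ) (D : Finset ℕ → ℕ → Finset ℕ → ℕ → κ) (z : ℕ → ℕ) :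
    Fin M → Fin M → κ :=
  fun q q' => D ((range M).image (fun s => z (2 * s))) (z (2 * (q : ℕ)))
    ((range M).image (fun s => z (2 * s + 1))) (z (2 * (q' : ℕ) + 1))

theorem hom (κ : Type) [Fintype κ] [Nonempty κ] (M m : ℕ) :
    ∃ N : ℕ, ∀ D : Finset ℕ → ℕ → Finset ℕ → ℕ → κ,
      ∃ T ⊆ range N, T.card = m ∧ ∃ k : Fin M → Fin M → κ, ∀ z : ℕ → ℕ,
        (∀ a b, a < b → b < 2 * M → z a < z b) → (∀ a, a < 2 * M → z a ∈ T) →
          Col M D z = k := by
  classical
  obtain ⟨N, hN⟩ := Pool.Agent.H685R2.DIM.ramsey_gen (Fin M → Fin M → κ) (2 * M) m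
  refine ⟨N, fun D => ?_⟩
  obtain ⟨T, hT, hTc, k, hk⟩ := hN (range N) (fun l => Col M D (fun n => l.getD n 0))
    (by rw [card_range])
  refine ⟨T, hT, hTc, k, fun z hz hzT => ?_⟩
  have h1 := hk ((List.range (2 * M)).map z) (by simp) (by
      rw [List.pairwise_map]
      have h2 : (List.range (2 * M)).Pairwise (fun a b => a < b ∧ b < 2 * M) := by
        rw [List.pairwise_iff_getElem]
        intro i j hi hj hij
        simp only [List.length_range] at hi hj
        simp only [List.getElem_range]
        exact ⟨hij, hj⟩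
      exact h2.imp (fun {a b} h => hz a b h.1 h.2)) (by
      intro x hx
      rw [List.mem_map] at hx
      obtain ⟨a, ha, rfl⟩ := hx
      exact hzT a (List.mem_range.1 ha))
  rw [← h1]
  have hg : ∀ n, n < 2 * M → ((List.range (2 * M)).map z).getD n 0 = z n := by
    intro n hn
    rw [List.getD_eq_getElem _ _ (by simpa using hn)]
    simp
  unfold Col
  funext q q'
  have hq := q.2
  have hq' := q'.2
  have e1 : (range M).image (fun s => z (2 * s)) =
      (range M).image (fun s => ((List.range (2 * M)).map z).getD (2 * s) 0) := by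
    apply image_congr
    intro s hs
    have hs' : s < M := by simpa using hs
    exact (hg (2 * s) (by omega)).symm
  have e2 : (range M).image (fun s => z (2 * s + 1)) =
      (range M).image (fun s => ((List.range (2 * M)).map z).getD (2 * s + 1) 0) := by
    apply image_congr
    intro s hs
    have hs' : s < M := by simpa using hs
    exact (hg (2 * s + 1) (by omega)).symm
  simp only [e1, e2, hg (2 * (q : ℕ)) (by omega), hg (2 * (q' : ℕ) + 1) (by omega)]

/-- increasing enumeration -/
theorem enum (T : Finset ℕ) (m : ℕ) (hT : T.card = m) :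
    ∃ h : ℕ → ℕ, (∀ a b, a < b → b < m → h a < h b) ∧ (∀ a, a < m → h a ∈ T) := by
  classical
  refine ⟨fun n => if hn : n < m then T.orderEmbOfFin hT ⟨n, hn⟩ else 0, ?_, ?_⟩
  · intro a b hab hb
    have ha : a < m := hab.trans hb
    simp only [ha, hb, dif_pos]
    exact (T.orderEmbOfFin hT).strictMono (by exact hab)
  · intro a ha
    simp only [ha, dif_pos]
    exact T.orderEmbOfFin_mem hT _

theorem ranks (κ : Type) [Fintype κ] [Nonempty κ] :
    ∃ M : ℕ, ∀ k : Fin M → Fin M → κ, ∃ (q : Fin 3 → Fin M) (γ1 γ2 : κ), StrictMono q ∧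
      ∀ u u' : Fin 3, u < u' → k (q u) (q u') = γ1 ∧ k (q u') (q u) = γ2 := by
  classical
  obtain ⟨M, hM⟩ := Pool.Agent.H730R3.ramsey (κ × κ) 3
  refine ⟨M, fun k => ?_⟩
  obtain ⟨T, -, hT, γ, hγ⟩ := hM (Fin M) (fun i j => (k i j, k j i)) univ (by simp)
  refine ⟨fun u => T.orderEmbOfFin hT u, γ.1, γ.2, (T.orderEmbOfFin hT).strictMono, ?_⟩
  intro u u' huu
  have h := hγ _ (T.orderEmbOfFin_mem hT u) _ (T.orderEmbOfFin_mem hT u')
    ((T.orderEmbOfFin hT).strictMono huu)
  exact ⟨congrArg Prod.fst h, congrArg Prod.snd h⟩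

/-- The Ramsey statement used below. -/
theorem ram (κ : Type) [Fintype κ] [Nonempty κ] :
    ∃ N : ℕ, ∀ D : Finset ℕ → ℕ → Finset ℕ → ℕ → κ,
      ∃ (γ1 γ2 : κ) (A : Fin 3 → Finset ℕ) (x : Fin 3 → Fin 3 → ℕ)
        (B1 B1' B2 B2' : Finset ℕ) (i1 i2 : ℕ),
        (∀ p, A p ⊆ range N) ∧ (∀ p u, x p u ∈ A p) ∧
        (∀ p p', p < p' → Disjoint (A p) (A p')) ∧
        (∀ p p' u u', p < p' → u < u' → D (A p) (x p u) (A p') (x p' u') = γ1 ∧
          D (A p) (x p u') (A p') (x p' u) = γ2) ∧
        (B1 ⊆ range N ∧ B1' ⊆ range N ∧ B2 ⊆ range N ∧ B2' ⊆ range N) ∧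
        (i1 ∈ B1 ∧ i2 ∈ B1' ∧ i2 ∈ B2 ∧ i1 ∈ B2') ∧
        D B1 i1 B1' i2 = γ1 ∧ D B2 i2 B2' i1 = γ2 := by
  classical
  obtain ⟨M, hM⟩ := ranks κ
  obtain ⟨N, hN⟩ := hom κ M (3 * M + 1)
  refine ⟨N, fun D => ?_⟩
  obtain ⟨T, hTN, hTc, k, hk⟩ := hN D
  obtain ⟨h, hmono, hmem⟩ := enum T (3 * M + 1) hTc
  obtain ⟨q, γ1, γ2, hq, hγ⟩ := hM k
  have hinj : ∀ a b, a < 3 * M + 1 → b < 3 * M + 1 → h a = h b → a = b := by
    intro a b ha hb hab
    rcases lt_trichotomy a b with h1 | h1 | h1
    · exact absurd hab (hmono a b h1 hb).ne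
    · exact h1
    · exact absurd hab (hmono b a h1 ha).ne'
  -- general interleaved pairs
  have key : ∀ y y' : ℕ → ℕ, (∀ s, s < M → y s < y' s) → (∀ s, s + 1 < M → y' s < y (s + 1)) →
      (∀ s, s < M → y s ∈ T ∧ y' s ∈ T) → ∀ a b : Fin M,
      D ((range M).image y) (y a) ((range M).image y') (y' b) = k a b := by
    intro y y' h1 h2 h3 a b
    have hz := hk (fun n => if n % 2 = 0 then y (n / 2) else y' (n / 2)) (by
      have hst : ∀ n, n + 1 < 2 * M →
          (fun n => if n % 2 = 0 then y (n / 2) else y' (n / 2)) n <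
          (fun n => if n % 2 = 0 then y (n / 2) else y' (n / 2)) (n + 1) := by
        intro n hn
        rcases Nat.even_or_odd' n with ⟨c, rfl | rfl⟩
        · have e1 : (2 * c) % 2 = 0 := by omega
          have e2 : (2 * c + 1) % 2 = 1 := by omega
          have e3 : (2 * c) / 2 = c := by omega
          have e4 : (2 * c + 1) / 2 = c := by omega
          simp only [e1, e2, e3, e4, if_true, one_ne_zero, if_false]
          exact h1 c (by omega)
        · have e1 : (2 * c + 1) % 2 = 1 := by omega
          have e2 : (2 * c + 1 + 1) % 2 = 0 := by omega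
          have e3 : (2 * c + 1) / 2 = c := by omega
          have e4 : (2 * c + 1 + 1) / 2 = c + 1 := by omega
          simp only [e1, e2, e3, e4, if_true, one_ne_zero, if_false]
          exact h2 c (by omega)
      intro a b hab hb
      induction b with
      | zero => omega
      | succ b ih =>
        rcases Nat.lt_or_ge a b with h5 | h5
        · exact (ih h5 (by omega)).trans (hst b hb)
        · have : a = b := by omega
          subst this
          exact hst a hb) (by
      intro n hn
      split_ifs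
      · exact (h3 (n / 2) (by omega)).1
      · exact (h3 (n / 2) (by omega)).2)
    have hab := congrFun (congrFun hz a) b
    rw [← hab]
    unfold Col
    have e1 : ∀ s, (if (2 * s) % 2 = 0 then y ((2 * s) / 2) else y' ((2 * s) / 2)) = y s := by
      intro s
      have e1 : (2 * s) % 2 = 0 := by omega
      have e3 : (2 * s) / 2 = s := by omega
      rw [e1, e3, if_pos rfl]
    have e2 : ∀ s, (if (2 * s + 1) % 2 = 0 then y ((2 * s + 1) / 2) else y' ((2 * s + 1) / 2))
        = y' s := by
      intro s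
      have e1 : (2 * s + 1) % 2 = 1 := by omega
      have e3 : (2 * s + 1) / 2 = s := by omega
      rw [e1, e3, if_neg (by norm_num)]
    simp only [e1, e2]
  have hq01 : (q 0 : ℕ) < (q 1 : ℕ) := hq (by decide)
  have hq1M : (q 1 : ℕ) < M := (q 1).2
  -- the sets
  refine ⟨γ1, γ2, fun p => (range M).image (fun s => h (3 * s + (p : ℕ))),
    fun p u => h (3 * (q u : ℕ) + (p : ℕ)),
    (range M).image (fun s => h (3 * s + 1)), (range M).image (fun s => h (3 * s + 2)),
    (range M).image (fun s => if s < (q 1 : ℕ) then h (3 * s) else h (3 * s + 2)),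
    (range M).image (fun s => if s < (q 1 : ℕ) then h (3 * s + 1) else h (3 * s + 3)),
    h (3 * (q 0 : ℕ) + 1), h (3 * (q 1 : ℕ) + 2), ?_, ?_, ?_, ?_, ?_, ?_, ?_, ?_⟩
  · intro p y hy
    simp only [mem_image, mem_range] at hy
    obtain ⟨s, hs, rfl⟩ := hy
    exact hTN (hmem _ (by have := p.2; omega))
  · intro p u
    exact mem_image_of_mem (fun s => h (3 * s + (p : ℕ))) (mem_range.2 (q u).2)
  · intro p p' hpp
    rw [disjoint_left]
    intro y hy hy'
    simp only [mem_image, mem_range] at hy hy'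
    obtain ⟨s, hs, rfl⟩ := hy
    obtain ⟨s', hs', he⟩ := hy'
    have h1 := p.2
    have h2 := p'.2
    have h3 : (p : ℕ) < (p' : ℕ) := hpp
    have := hinj _ _ (by omega) (by omega) he
    omega
  · intro p p' u u' hpp huu
    have h1 := p.2
    have h2 := p'.2
    have h3 : (p : ℕ) < (p' : ℕ) := hpp
    have hK := key (fun s => h (3 * s + (p : ℕ))) (fun s => h (3 * s + (p' : ℕ)))
      (fun s hs => hmono _ _ (by omega) (by omega))
      (fun s hs => hmono _ _ (by omega) (by omega))
      (fun s hs => ⟨hmem _ (by omega), hmem _ (by omega)⟩)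
    obtain ⟨g1, g2⟩ := hγ u u' huu
    exact ⟨(hK (q u) (q u')).trans g1, (hK (q u') (q u)).trans g2⟩
  · refine ⟨?_, ?_, ?_, ?_⟩
    · intro y hy
      simp only [mem_image, mem_range] at hy
      obtain ⟨s, hs, rfl⟩ := hy
      exact hTN (hmem _ (by omega))
    · intro y hy
      simp only [mem_image, mem_range] at hy
      obtain ⟨s, hs, rfl⟩ := hy
      exact hTN (hmem _ (by omega))
    · intro y hy
      simp only [mem_image, mem_range] at hy
      obtain ⟨s, hs, rfl⟩ := hy
      split_ifs
      · exact hTN (hmem _ (by omega))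
      · exact hTN (hmem _ (by omega))
    · intro y hy
      simp only [mem_image, mem_range] at hy
      obtain ⟨s, hs, rfl⟩ := hy
      split_ifs
      · exact hTN (hmem _ (by omega))
      · exact hTN (hmem _ (by omega))
  · refine ⟨mem_image_of_mem (fun s => h (3 * s + 1)) (mem_range.2 (q 0).2),
      mem_image_of_mem (fun s => h (3 * s + 2)) (mem_range.2 (q 1).2), ?_, ?_⟩
    · rw [mem_image]
      exact ⟨(q 1 : ℕ), mem_range.2 (q 1).2, by simp⟩
    · rw [mem_image]
      exact ⟨(q 0 : ℕ), mem_range.2 (q 0).2, by simp [hq01]⟩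
  · have hK := key (fun s => h (3 * s + 1)) (fun s => h (3 * s + 2))
      (fun s hs => hmono _ _ (by omega) (by omega))
      (fun s hs => hmono _ _ (by omega) (by omega))
      (fun s hs => ⟨hmem _ (by omega), hmem _ (by omega)⟩)
    exact (hK (q 0) (q 1)).trans (hγ 0 1 (by decide)).1
  · have hK := key (fun s => if s < (q 1 : ℕ) then h (3 * s) else h (3 * s + 2))
      (fun s => if s < (q 1 : ℕ) then h (3 * s + 1) else h (3 * s + 3))
      (fun s hs => by
        split_ifs
        · exact hmono _ _ (by omega) (by omega)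
        · exact hmono _ _ (by omega) (by omega))
      (fun s hs => by
        split_ifs
        · exact hmono _ _ (by omega) (by omega)
        · exact hmono _ _ (by omega) (by omega)
        · omega
        · exact hmono _ _ (by omega) (by omega))
      (fun s hs => by
        split_ifs
        · exact ⟨hmem _ (by omega), hmem _ (by omega)⟩
        · exact ⟨hmem _ (by omega), hmem _ (by omega)⟩)
    have h2 := (hK (q 1) (q 0)).trans (hγ 0 1 (by decide)).2
    simpa [hq01] using h2

end Pool.Agent.Helper25.UC
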