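import Mathlib
import Pool.Agent.Helper25.UC.Ram

/-!
# The combinatorial core

Three coordinates cannot change from `centre-like` to `label-like` behaviour.
-/

set_option autoImplicit false

namespace Pool.Agent.Helper25.UC

open Finset

/-- The signs of the comparisons in general position of a `3 × 3` array are constant. -/
def Sg (g : Fin 3 → Fin 3 → ℝ) (X Y : SignType) : Prop :=
  ∀ p p' u u' : Fin 3, p < p' → u < u' →
    SignType.sign (g p' u' - g p u) = X ∧ SignType.sign (g p' u - g p u') = Y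

theorem Sg.neg {g : Fin 3 → Fin 3 → ℝ} {X Y : SignType} (h : Sg g X Y) :
    Sg (fun p u => - g p u) (-X) (-Y) := by
  intro p p' u u' hp hu
  obtain ⟨h1, h2⟩ := h p p' u u' hp hu
  constructor
  · rw [← h1, ← Left.sign_neg]
    congr 1
    ring
  · rw [← h2, ← Left.sign_neg]
    congr 1
    ring

theorem Sg.revu {g : Fin 3 → Fin 3 → ℝ} {X Y : SignType} (h : Sg g X Y) :
    Sg (fun p u => g p (Fin.rev u)) Y X := by
  intro p p' u u' hp hu
  obtain ⟨h1, h2⟩ := h p p' (Fin.rev u') (Fin.rev u) hp (Fin.rev_lt_rev.2 hu)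
  exact ⟨h2, h1⟩

theorem Sg.revp {g : Fin 3 → Fin 3 → ℝ} {X Y : SignType} (h : Sg g X Y) :
    Sg (fun p u => g (Fin.rev p) u) (-Y) (-X) := by
  intro p p' u u' hp hu
  obtain ⟨h1, h2⟩ := h (Fin.rev p') (Fin.rev p) u u' (Fin.rev_lt_rev.2 hp) hu
  constructor
  · rw [← h2, ← Left.sign_neg]
    congr 1
    ring
  · rw [← h1, ← Left.sign_neg]
    congr 1
    ring

theorem cyc_fin : ∀ κ κ' : SignType, ¬ (0 ≤ κ ∧ κ' ≤ 0) → ¬ (κ ≤ 0 ∧ 0 ≤ κ') →
    κ = κ' ∧ κ ≠ 0 := by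
  decide

/-- First case: the upper one of the two flags. -/
theorem m1 {g h : Fin 3 → Fin 3 → ℝ} {X Y X' Y' : SignType} (hle : ∀ p u, |h p u - g p u| ≤ 1)
    (hg : Sg g X Y) (hh : Sg h X' Y')
    (hb : ∀ p p' u u' : Fin 3, p < p' → u < u' → g p u + 1 < h p' u') :
    X = 1 ∧ X' = 1 ∧ Y = Y' ∧ Y ≠ 0 := by
  have l01 : (0 : Fin 3) < 1 := by decide
  have l12 : (1 : Fin 3) < 2 := by decide
  have l02 : (0 : Fin 3) < 2 := by decide
  have hle' : ∀ p u, h p u ≤ g p u + 1 ∧ g p u ≤ h p u + 1 := by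
    intro p u
    have := abs_le.1 (hle p u)
    constructor <;> linarith [this.1, this.2]
  have hX : X = 1 := by
    rw [← (hg 0 1 0 1 l01 l01).1, sign_eq_one_iff]
    linarith [hb 0 1 0 1 l01 l01, (hle' 1 1).1, (hle' 1 1).2]
  have hX' : X' = 1 := by
    rw [← (hh 0 1 0 1 l01 l01).1, sign_eq_one_iff]
    linarith [hb 0 1 0 1 l01 l01, (hle' 0 0).1, (hle' 0 0).2]
  refine ⟨hX, hX', cyc_fin Y Y' ?_ ?_⟩
  · rintro ⟨h1, h2⟩
    rw [← (hg 0 1 0 2 l01 l02).2, sign_nonneg_iff] at h1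
    rw [← (hh 0 2 1 2 l02 l12).2, sign_nonpos_iff] at h2
    linarith [hb 1 2 0 1 l12 l01, (hle' 0 2).1]
  · rintro ⟨h1, h2⟩
    rw [← (hg 0 2 0 1 l02 l01).2, sign_nonpos_iff] at h1
    rw [← (hh 1 2 0 2 l12 l02).2, sign_nonneg_iff] at h2
    linarith [hb 0 1 1 2 l01 l12, (hle' 2 0).1]

theorem m3 {g h : Fin 3 → Fin 3 → ℝ} {X Y X' Y' : SignType} (hle : ∀ p u, |h p u - g p u| ≤ 1)
    (hg : Sg g X Y) (hh : Sg h X' Y')
    (hb : ∀ p p' u u' : Fin 3, p < p' → u < u' → g p u' + 1 < h p' u) :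
    Y = 1 ∧ Y' = 1 ∧ X = X' ∧ X ≠ 0 :=
  m1 (g := fun p u => g p (Fin.rev u)) (h := fun p u => h p (Fin.rev u))
    (fun p u => hle p _) hg.revu hh.revu
    (fun p p' u u' hp hu => hb p p' (Fin.rev u') (Fin.rev u) hp (Fin.rev_lt_rev.2 hu))

theorem sg_neg_one : ∀ κ : SignType, -κ = 1 → κ = -1 := by decide

theorem sg_neg_inj : ∀ κ κ' : SignType, -κ = -κ' → κ = κ' := by decide

theorem sg_neg_ne : ∀ κ : SignType, -κ ≠ 0 → κ ≠ 0 := by decide

theorem m4 {g h : Fin 3 → Fin 3 → ℝ} {X Y X' Y' : SignType} (hle : ∀ p u, |h p u - g p u| ≤ 1)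
    (hg : Sg g X Y) (hh : Sg h X' Y')
    (hb : ∀ p p' u u' : Fin 3, p < p' → u < u' → g p' u + 1 < h p u') :
    Y = -1 ∧ Y' = -1 ∧ X = X' ∧ X ≠ 0 := by
  obtain ⟨h1, h2, h3, h4⟩ := m1 (g := fun p u => g (Fin.rev p) u)
    (h := fun p u => h (Fin.rev p) u)
    (fun p u => hle _ u) hg.revp hh.revp
    (fun p p' u u' hp hu => hb (Fin.rev p') (Fin.rev p) u u' (Fin.rev_lt_rev.2 hp) hu)
  exact ⟨sg_neg_one _ h1, sg_neg_one _ h2, sg_neg_inj _ _ h3, sg_neg_ne _ h4⟩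

theorem m2 {g h : Fin 3 → Fin 3 → ℝ} {X Y X' Y' : SignType} (hle : ∀ p u, |h p u - g p u| ≤ 1)
    (hg : Sg g X Y) (hh : Sg h X' Y')
    (hb : ∀ p p' u u' : Fin 3, p < p' → u < u' → g p' u' + 1 < h p u) :
    X = -1 ∧ X' = -1 ∧ Y = Y' ∧ Y ≠ 0 := by
  obtain ⟨h1, h2, h3, h4⟩ := m3 (g := fun p u => g (Fin.rev p) u)
    (h := fun p u => h (Fin.rev p) u)
    (fun p u => hle _ u) hg.revp hh.revp
    (fun p p' u u' hp hu => hb (Fin.rev p') (Fin.rev p) u u' (Fin.rev_lt_rev.2 hp) hu)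
  exact ⟨sg_neg_one _ h1, sg_neg_one _ h2, sg_neg_inj _ _ h3, sg_neg_ne _ h4⟩

/-- centre-like -/
def Jt (X Y : SignType) : Prop := X = Y ∧ X ≠ 0

/-- label-like -/
def It (X Y : SignType) : Prop := X = -Y ∧ X ≠ 0

theorem dich : ∀ X Y : SignType, X ≠ 0 → Y ≠ 0 → (X = Y ∧ X ≠ 0) ∨ (X = -Y ∧ X ≠ 0) := by
  decide

theorem pig (X Y X' Y' σ : Fin 3 → SignType) (B1 B2 B3 B4 : Fin 3 → Prop)
    (h1 : ∀ c, B1 c → X c = σ c) (h2 : ∀ c, B2 c → X c = - σ c)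
    (h3 : ∀ c, B3 c → Y c = σ c) (h4 : ∀ c, B4 c → Y c = - σ c)
    (hP : ∀ c, B1 c ∨ B2 c ∨ B3 c ∨ B4 c → X c = X' c ∧ Y c = Y' c ∧ X c ≠ 0 ∧ Y c ≠ 0)
    (e1 : ∃ c, B1 c) (e2 : ∃ c, B2 c) (e3 : ∃ c, B3 c) (e4 : ∃ c, B4 c) :
    (∃ c c', c ≠ c' ∧ Jt (X c) (Y c) ∧ Jt (X' c) (Y' c) ∧ Jt (X c') (Y c') ∧
      Jt (X' c') (Y' c')) ∨
    (∃ c c', c ≠ c' ∧ It (X c) (Y c) ∧ It (X' c) (Y' c) ∧ It (X c') (Y c') ∧
      It (X' c') (Y' c')) := by
  obtain ⟨α, hα⟩ := e1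
  obtain ⟨β, hβ⟩ := e2
  obtain ⟨γ, hγ⟩ := e3
  obtain ⟨δ, hδ⟩ := e4
  have Pα := hP α (Or.inl hα)
  have Pβ := hP β (Or.inr (Or.inl hβ))
  have Pγ := hP γ (Or.inr (Or.inr (Or.inl hγ)))
  have Pδ := hP δ (Or.inr (Or.inr (Or.inr hδ)))
  have xα := h1 α hα
  have xβ := h2 β hβ
  have yγ := h3 γ hγ
  have yδ := h4 δ hδ
  have f1 : ∀ s : SignType, s = -s → s = 0 := by decide
  have hαβ : α ≠ β := by
    rintro rfl
    have : σ α = - σ α := xα.symm.trans xβ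
    exact Pα.2.2.1 (xα.trans (f1 _ this))
  have hγδ : γ ≠ δ := by
    rintro rfl
    have : σ γ = - σ γ := yγ.symm.trans yδ
    exact Pγ.2.2.2 (yγ.trans (f1 _ this))
  have J : ∀ c c', c ≠ c' → (X c = X' c ∧ Y c = Y' c ∧ X c ≠ 0 ∧ Y c ≠ 0) →
      (X c' = X' c' ∧ Y c' = Y' c' ∧ X c' ≠ 0 ∧ Y c' ≠ 0) → (X c = Y c ∧ X c ≠ 0) →
      (X c' = Y c' ∧ X c' ≠ 0) → (∃ c c', c ≠ c' ∧ Jt (X c) (Y c) ∧ Jt (X' c) (Y' c) ∧
      Jt (X c') (Y c') ∧ Jt (X' c') (Y' c')) := by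
    intro c c' hc p1 p2 t1 t2
    exact ⟨c, c', hc, t1, by rw [← p1.1, ← p1.2.1]; exact t1, t2,
      by rw [← p2.1, ← p2.2.1]; exact t2⟩
  have I : ∀ c c', c ≠ c' → (X c = X' c ∧ Y c = Y' c ∧ X c ≠ 0 ∧ Y c ≠ 0) →
      (X c' = X' c' ∧ Y c' = Y' c' ∧ X c' ≠ 0 ∧ Y c' ≠ 0) → (X c = -Y c ∧ X c ≠ 0) →
      (X c' = -Y c' ∧ X c' ≠ 0) → (∃ c c', c ≠ c' ∧ It (X c) (Y c) ∧ It (X' c) (Y' c) ∧
      It (X c') (Y c') ∧ It (X' c') (Y' c')) := by
    intro c c' hc p1 p2 t1 t2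
    exact ⟨c, c', hc, t1, by rw [← p1.1, ← p1.2.1]; exact t1, t2,
      by rw [← p2.1, ← p2.2.1]; exact t2⟩
  rcases dich _ _ Pα.2.2.1 Pα.2.2.2 with tα | tα <;>
  rcases dich _ _ Pβ.2.2.1 Pβ.2.2.2 with tβ | tβ
  · exact Or.inl (J α β hαβ Pα Pβ tα tβ)
  · rcases dich _ _ Pγ.2.2.1 Pγ.2.2.2 with tγ | tγ <;>
    rcases dich _ _ Pδ.2.2.1 Pδ.2.2.2 with tδ | tδ
    · exact Or.inl (J γ δ hγδ Pγ Pδ tγ tδ)
    · by_cases c1 : γ = α
      · by_cases c2 : δ = β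
        · exfalso
          subst c2
          have : X δ = Y δ := by rw [xβ, yδ]
          have h5 : Y δ = - Y δ := this ▸ tβ.1
          exact Pδ.2.2.2 (f1 _ h5)
        · exact Or.inr (I δ β c2 Pδ Pβ tδ tβ)
      · exact Or.inl (J γ α c1 Pγ Pα tγ tα)
    · by_cases c1 : γ = β
      · by_cases c2 : δ = α
        · exfalso
          subst c2
          have h5 : σ δ = - σ δ := by
            have := tα.1
            rw [xα, yδ] at this
            exact this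
          exact Pα.2.2.1 (xα.trans (f1 _ h5))
        · exact Or.inl (J δ α c2 Pδ Pα tδ tα)
      · exact Or.inr (I γ β c1 Pγ Pβ tγ tβ)
    · exact Or.inr (I γ δ hγδ Pγ Pδ tγ tδ)
  · rcases dich _ _ Pγ.2.2.1 Pγ.2.2.2 with tγ | tγ <;>
    rcases dich _ _ Pδ.2.2.1 Pδ.2.2.2 with tδ | tδ
    · exact Or.inl (J γ δ hγδ Pγ Pδ tγ tδ)
    · by_cases c1 : γ = β
      · exfalso
        subst c1
        have h5 : - σ γ = σ γ := by rw [← xβ, tβ.1, yγ]
        exact Pγ.2.2.2 (yγ.trans (f1 _ h5.symm))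
      · exact Or.inl (J γ β c1 Pγ Pβ tγ tβ)
    · by_cases c1 : γ = α
      · exfalso
        subst c1
        have h5 : σ γ = - σ γ := by
          have := tα.1
          rw [xα, yγ] at this
          exact this
        exact Pγ.2.2.2 (yγ.trans (f1 _ h5))
      · exact Or.inr (I γ α c1 Pγ Pα tγ tα)
    · exact Or.inr (I γ δ hγδ Pγ Pδ tγ tδ)
  · exact Or.inr (I α β hαβ Pα Pβ tα tβ)

/-! ### the main combinatorial statement -/

/-- The comparison data of a pair of incidences. -/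
abbrev Dat (r : ℕ) : Type :=
  Fin (r + 1) → Fin 3 → SignType × Fin (6 * r + 2) × Fin (6 * r + 2) × Prop × Prop × Prop × Prop

noncomputable def code (r : ℕ) (a : ℝ) : Fin (6 * r + 2) :=
  ⟨min (⌊a⌋ + 3 * r).toNat (6 * r + 1), by omega⟩

theorem code_eq {r : ℕ} {a b : ℝ} (ha : |a| ≤ 3 * r) (hb : |b| ≤ 3 * r)
    (h : code r a = code r b) : ⌊a⌋ = ⌊b⌋ := by
  have f : ∀ x : ℝ, |x| ≤ 3 * r → -(3 * r : ℤ) ≤ ⌊x⌋ ∧ ⌊x⌋ ≤ 3 * r := by
    intro x hx
    have h1 := abs_le.1 hx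
    constructor
    · rw [Int.le_floor]
      push_cast
      linarith [h1.1]
    · have : ((⌊x⌋ : ℤ) : ℝ) ≤ ((3 * r : ℤ) : ℝ) := by
        push_cast
        exact (Int.floor_le x).trans h1.2
      exact_mod_cast this
  have h1 := f a ha
  have h2 := f b hb
  have h3 := congrArg Fin.val h
  simp only [code] at h3
  omega

theorem core (r : ℕ) (hr : 1 ≤ r) : ∃ N : ℕ, ∀ (F : ℕ → Fin 3 → Finset ℕ → ℕ → ℝ)
    (aa : Finset ℕ → Fin 3 → ℝ) (ss : ℕ → Fin 3 → ℝ),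
    (∀ A ⊆ range N, ∀ i ∈ A, ∀ c, F 0 c A i = aa A c) →
    (∀ A ⊆ range N, ∀ i ∈ A, ∀ c, F r c A i = ss i c) →
    (∀ A ⊆ range N, ∀ i ∈ A, ∀ t < r, ∀ c, |F (t + 1) c A i - F t c A i| ≤ 1) →
    (∀ A ⊆ range N, ∀ i ∈ A, ∀ t ≤ r, ∀ c, |F t c A i| ≤ 3 * r) →
    (∀ A ⊆ range N, ∀ A' ⊆ range N, ∀ i ∈ A, ∀ i' ∈ A', i' ∉ A → ∀ t < r,
      ∃ c, 1 < |F (t + 1) c A' i' - F t c A i|) → False := by
  classical
  obtain ⟨N, hN⟩ := ram (Dat r)
  refine ⟨N, fun F aa ss h0 hrr hstep hbd hblock => ?_⟩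
  obtain ⟨γ1, γ2, A, x, B1, B1', B2, B2', i1, i2, hA, hx, hdis, hD, ⟨b1, b1', b2, b2'⟩,
    ⟨j1, j1', j2, j2'⟩, hD1, hD2⟩ := hN (fun A i A' i' t c =>
      (SignType.sign (F t c A' i' - F t c A i), code r (F t c A i), code r (F t c A' i'),
        F t c A i + 1 < F ((t : ℕ) + 1) c A' i', F ((t : ℕ) + 1) c A' i' + 1 < F t c A i,
        F t c A' i' + 1 < F ((t : ℕ) + 1) c A i, F ((t : ℕ) + 1) c A i + 1 < F t c A' i'))
  have l01 : (0 : Fin 3) < 1 := by decide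
  have l12 : (1 : Fin 3) < 2 := by decide
  have l02 : (0 : Fin 3) < 2 := by decide
  -- the arrays
  set G : ℕ → Fin 3 → Fin 3 → Fin 3 → ℝ := fun t c p u => F t c (A p) (x p u) with hGdef
  have hd : ∀ t (ht : t < r + 1) (c : Fin 3) (p p' u u' : Fin 3), p < p' → u < u' →
      ((SignType.sign (G t c p' u' - G t c p u), code r (G t c p u), code r (G t c p' u'),
        (G t c p u + 1 < G (t + 1) c p' u'), (G (t + 1) c p' u' + 1 < G t c p u),
        (G t c p' u' + 1 < G (t + 1) c p u), (G (t + 1) c p u + 1 < G t c p' u')) :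
        SignType × Fin (6 * r + 2) × Fin (6 * r + 2) × Prop × Prop × Prop × Prop) =
        γ1 ⟨t, ht⟩ c ∧
      ((SignType.sign (G t c p' u - G t c p u'), code r (G t c p u'), code r (G t c p' u),
        (G t c p u' + 1 < G (t + 1) c p' u), (G (t + 1) c p' u + 1 < G t c p u'),
        (G t c p' u + 1 < G (t + 1) c p u'), (G (t + 1) c p u' + 1 < G t c p' u)) :
        SignType × Fin (6 * r + 2) × Fin (6 * r + 2) × Prop × Prop × Prop × Prop) =
        γ2 ⟨t, ht⟩ c := by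
    intro t ht c p p' u u' hp hu
    obtain ⟨e1, e2⟩ := hD p p' u u' hp hu
    exact ⟨congrFun (congrFun e1 ⟨t, ht⟩) c, congrFun (congrFun e2 ⟨t, ht⟩) c⟩
  set X : ℕ → Fin 3 → SignType := fun t c => SignType.sign (G t c 1 1 - G t c 0 0) with hX
  set Y : ℕ → Fin 3 → SignType := fun t c => SignType.sign (G t c 1 0 - G t c 0 1) with hY
  have hSg : ∀ t, t ≤ r → ∀ c, Sg (G t c) (X t c) (Y t c) := by
    intro t ht c p p' u u' hp hu
    have ht' : t < r + 1 := by omega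
    obtain ⟨e1, e2⟩ := hd t ht' c p p' u u' hp hu
    obtain ⟨f1, f2⟩ := hd t ht' c 0 1 0 1 l01 l01
    exact ⟨congrArg Prod.fst (e1.trans f1.symm), congrArg Prod.fst (e2.trans f2.symm)⟩
  -- floors
  have hcode : ∀ t, t ≤ r → ∀ c p u, code r (G t c p u) = code r (G t c 1 1) := by
    intro t ht c
    have ht' : t < r + 1 := by omega
    have a1 : ∀ p p' u u' : Fin 3, p < p' → u < u' →
        code r (G t c p u) = (γ1 ⟨t, ht'⟩ c).2.1 ∧ code r (G t c p' u') = (γ1 ⟨t, ht'⟩ c).2.2.1 ∧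
        code r (G t c p u') = (γ2 ⟨t, ht'⟩ c).2.1 ∧ code r (G t c p' u) = (γ2 ⟨t, ht'⟩ c).2.2.1 := by
      intro p p' u u' hp hu
      obtain ⟨e1, e2⟩ := hd t ht' c p p' u u' hp hu
      exact ⟨congrArg (fun z => z.2.1) e1, congrArg (fun z => z.2.2.1) e1,
        congrArg (fun z => z.2.1) e2, congrArg (fun z => z.2.2.1) e2⟩
    have k1 := (a1 1 2 1 2 l12 l12).1
    have k2 := (a1 0 1 0 1 l01 l01).2.1
    have k3 := (a1 1 2 0 1 l12 l01).2.2.1
    have k4 := (a1 0 1 1 2 l01 l12).2.2.2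
    intro p u
    fin_cases p <;> fin_cases u <;> simp only [Fin.zero_eta, Fin.mk_one, Fin.reduceFinMk]
    · exact (a1 0 1 0 1 l01 l01).1.trans k1.symm
    · exact (a1 0 1 1 2 l01 l12).1.trans k1.symm
    · exact (a1 0 1 0 2 l01 l02).2.2.1.trans k3.symm
    · exact (a1 1 2 0 1 l12 l01).1.trans k1.symm
    · exact (a1 1 2 0 2 l12 l02).2.2.1.trans k3.symm
    · exact (a1 0 2 0 1 l02 l01).2.2.2.trans k4.symm
    · exact (a1 0 2 0 1 l02 l01).2.1.trans k2.symm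
    · exact (a1 0 2 0 2 l02 l02).2.1.trans k2.symm
  have hbdG : ∀ t, t ≤ r → ∀ c p u, |G t c p u| ≤ 3 * r := fun t ht c p u =>
    hbd (A p) (hA p) _ (hx p u) t ht c
  have hfl : ∀ t, t ≤ r → ∀ c p u, ⌊G t c p u⌋ = ⌊G t c 1 1⌋ := fun t ht c p u =>
    code_eq (hbdG t ht c p u) (hbdG t ht c 1 1) (hcode t ht c p u)
  have hex : ∀ t, t < r → ∀ c p u p' u' q v q' v', G t c p u + 1 < G (t + 1) c p' u' →
      G (t + 1) c q v + 1 < G t c q' v' → False := by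
    intro t ht c p u p' u' q v q' v' h1 h2
    have a1 := hfl t (by omega) c p u
    have a2 := hfl (t + 1) (by omega) c p' u'
    have a3 := hfl (t + 1) (by omega) c q v
    have a4 := hfl t (by omega) c q' v'
    have b1 := Int.floor_le (G t c p u)
    have b2 := Int.lt_floor_add_one (G (t + 1) c p' u')
    have b3 := Int.floor_le (G (t + 1) c q v)
    have b4 := Int.lt_floor_add_one (G t c q' v')
    rw [a1] at b1
    rw [a2] at b2
    rw [a3] at b3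
    rw [a4] at b4
    have c1 : ((⌊G t c 1 1⌋ : ℤ) : ℝ) < ((⌊G (t + 1) c 1 1⌋ : ℤ) : ℝ) := by linarith
    have c2 : ((⌊G (t + 1) c 1 1⌋ : ℤ) : ℝ) < ((⌊G t c 1 1⌋ : ℤ) : ℝ) := by linarith
    linarith
  have hle : ∀ t, t < r → ∀ c p u, |G (t + 1) c p u - G t c p u| ≤ 1 := fun t ht c p u =>
    hstep (A p) (hA p) _ (hx p u) t ht c
  have hle' : ∀ t, t < r → ∀ c p u, |(fun p u => - G (t + 1) c p u) p u -
      (fun p u => - G t c p u) p u| ≤ 1 := by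
    intro t ht c p u
    have := hle t ht c p u
    rw [abs_le] at this ⊢
    constructor <;> linarith [this.1, this.2]
  -- one hop
  have hop : ∀ t, t < r →
      (∃ c c', c ≠ c' ∧ Jt (X t c) (Y t c) ∧ Jt (X (t + 1) c) (Y (t + 1) c) ∧
        Jt (X t c') (Y t c') ∧ Jt (X (t + 1) c') (Y (t + 1) c')) ∨
      (∃ c c', c ≠ c' ∧ It (X t c) (Y t c) ∧ It (X (t + 1) c) (Y (t + 1) c) ∧
        It (X t c') (Y t c') ∧ It (X (t + 1) c') (Y (t + 1) c')) := by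
    intro t ht
    have ht' : t < r + 1 := by omega
    have S := hSg t ht.le
    have S' := hSg (t + 1) ht
    have nn : ∀ s s' : SignType, -s = 1 → -s' = 1 → s = -1 ∧ s' = -1 := by decide
    have nm : ∀ s s' : SignType, -s = -1 → -s' = -1 → s = 1 ∧ s' = 1 := by decide
    -- flags are constant
    have fl1 : ∀ c (p p' u u' : Fin 3), p < p' → u < u' →
        ((G t c p u + 1 < G (t + 1) c p' u') = (G t c 0 0 + 1 < G (t + 1) c 1 1)) ∧
        ((G (t + 1) c p' u' + 1 < G t c p u) = (G (t + 1) c 1 1 + 1 < G t c 0 0)) ∧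
        ((G t c p' u' + 1 < G (t + 1) c p u) = (G t c 1 1 + 1 < G (t + 1) c 0 0)) ∧
        ((G (t + 1) c p u + 1 < G t c p' u') = (G (t + 1) c 0 0 + 1 < G t c 1 1)) := by
      intro c p p' u u' hp hu
      have e := ((hd t ht' c p p' u u' hp hu).1).trans ((hd t ht' c 0 1 0 1 l01 l01).1).symm
      exact ⟨congrArg (fun z => z.2.2.2.1) e, congrArg (fun z => z.2.2.2.2.1) e,
        congrArg (fun z => z.2.2.2.2.2.1) e, congrArg (fun z => z.2.2.2.2.2.2) e⟩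
    have fl2 : ∀ c (p p' u u' : Fin 3), p < p' → u < u' →
        ((G t c p u' + 1 < G (t + 1) c p' u) = (G t c 0 1 + 1 < G (t + 1) c 1 0)) ∧
        ((G (t + 1) c p' u + 1 < G t c p u') = (G (t + 1) c 1 0 + 1 < G t c 0 1)) ∧
        ((G t c p' u + 1 < G (t + 1) c p u') = (G t c 1 0 + 1 < G (t + 1) c 0 1)) ∧
        ((G (t + 1) c p u' + 1 < G t c p' u) = (G (t + 1) c 0 1 + 1 < G t c 1 0)) := by
      intro c p p' u u' hp hu
      have e := ((hd t ht' c p p' u u' hp hu).2).trans ((hd t ht' c 0 1 0 1 l01 l01).2).symm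
      exact ⟨congrArg (fun z => z.2.2.2.1) e, congrArg (fun z => z.2.2.2.2.1) e,
        congrArg (fun z => z.2.2.2.2.2.1) e, congrArg (fun z => z.2.2.2.2.2.2) e⟩
    -- consequences of the flags
    have r1 : ∀ c, G t c 0 0 + 1 < G (t + 1) c 1 1 →
        X t c = 1 ∧ X (t + 1) c = 1 ∧ Y t c = Y (t + 1) c ∧ Y t c ≠ 0 := fun c h =>
      m1 (hle t ht c) (S c) (S' c) (fun p p' u u' hp hu => by
        rw [(fl1 c p p' u u' hp hu).1]; exact h)
    have r1' : ∀ c, G (t + 1) c 1 1 + 1 < G t c 0 0 →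
        X t c = -1 ∧ X (t + 1) c = -1 ∧ Y t c = Y (t + 1) c ∧ Y t c ≠ 0 := by
      intro c h
      obtain ⟨a1, a2, a3, a4⟩ := m1 (hle' t ht c) (S c).neg (S' c).neg
        (fun p p' u u' hp hu => by
          have h1 : G (t + 1) c p' u' + 1 < G t c p u := by
            rw [(fl1 c p p' u u' hp hu).2.1]; exact h
          linarith)
      exact ⟨(nn _ _ a1 a2).1, (nn _ _ a1 a2).2, sg_neg_inj _ _ a3, sg_neg_ne _ a4⟩
    have r2 : ∀ c, G t c 1 1 + 1 < G (t + 1) c 0 0 →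
        X t c = -1 ∧ X (t + 1) c = -1 ∧ Y t c = Y (t + 1) c ∧ Y t c ≠ 0 := fun c h =>
      m2 (hle t ht c) (S c) (S' c) (fun p p' u u' hp hu => by
        rw [(fl1 c p p' u u' hp hu).2.2.1]; exact h)
    have r2' : ∀ c, G (t + 1) c 0 0 + 1 < G t c 1 1 →
        X t c = 1 ∧ X (t + 1) c = 1 ∧ Y t c = Y (t + 1) c ∧ Y t c ≠ 0 := by
      intro c h
      obtain ⟨a1, a2, a3, a4⟩ := m2 (hle' t ht c) (S c).neg (S' c).neg
        (fun p p' u u' hp hu => by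
          have h1 : G (t + 1) c p u + 1 < G t c p' u' := by
            rw [(fl1 c p p' u u' hp hu).2.2.2]; exact h
          linarith)
      exact ⟨(nm _ _ a1 a2).1, (nm _ _ a1 a2).2, sg_neg_inj _ _ a3, sg_neg_ne _ a4⟩
    have r3 : ∀ c, G t c 0 1 + 1 < G (t + 1) c 1 0 →
        Y t c = 1 ∧ Y (t + 1) c = 1 ∧ X t c = X (t + 1) c ∧ X t c ≠ 0 := fun c h =>
      m3 (hle t ht c) (S c) (S' c) (fun p p' u u' hp hu => by
        rw [(fl2 c p p' u u' hp hu).1]; exact h)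
    have r3' : ∀ c, G (t + 1) c 1 0 + 1 < G t c 0 1 →
        Y t c = -1 ∧ Y (t + 1) c = -1 ∧ X t c = X (t + 1) c ∧ X t c ≠ 0 := by
      intro c h
      obtain ⟨a1, a2, a3, a4⟩ := m3 (hle' t ht c) (S c).neg (S' c).neg
        (fun p p' u u' hp hu => by
          have h1 : G (t + 1) c p' u + 1 < G t c p u' := by
            rw [(fl2 c p p' u u' hp hu).2.1]; exact h
          linarith)
      exact ⟨(nn _ _ a1 a2).1, (nn _ _ a1 a2).2, sg_neg_inj _ _ a3, sg_neg_ne _ a4⟩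
    have r4 : ∀ c, G t c 1 0 + 1 < G (t + 1) c 0 1 →
        Y t c = -1 ∧ Y (t + 1) c = -1 ∧ X t c = X (t + 1) c ∧ X t c ≠ 0 := fun c h =>
      m4 (hle t ht c) (S c) (S' c) (fun p p' u u' hp hu => by
        rw [(fl2 c p p' u u' hp hu).2.2.1]; exact h)
    have r4' : ∀ c, G (t + 1) c 0 1 + 1 < G t c 1 0 →
        Y t c = 1 ∧ Y (t + 1) c = 1 ∧ X t c = X (t + 1) c ∧ X t c ≠ 0 := by
      intro c h
      obtain ⟨a1, a2, a3, a4⟩ := m4 (hle' t ht c) (S c).neg (S' c).neg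
        (fun p p' u u' hp hu => by
          have h1 : G (t + 1) c p u' + 1 < G t c p' u := by
            rw [(fl2 c p p' u u' hp hu).2.2.2]; exact h
          linarith)
      exact ⟨(nm _ _ a1 a2).1, (nm _ _ a1 a2).2, sg_neg_inj _ _ a3, sg_neg_ne _ a4⟩
    -- the sign of an axis
    set H : Fin 3 → Prop := fun c => G t c 0 0 + 1 < G (t + 1) c 1 1 ∨
      G t c 1 1 + 1 < G (t + 1) c 0 0 ∨ G t c 0 1 + 1 < G (t + 1) c 1 0 ∨
      G t c 1 0 + 1 < G (t + 1) c 0 1 with hH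
    have hHno : ∀ c p u p' u', G (t + 1) c p u + 1 < G t c p' u' → ¬ H c := by
      intro c p u p' u' h1 h2
      rcases h2 with h2 | h2 | h2 | h2
      · exact hex t ht c _ _ _ _ _ _ _ _ h2 h1
      · exact hex t ht c _ _ _ _ _ _ _ _ h2 h1
      · exact hex t ht c _ _ _ _ _ _ _ _ h2 h1
      · exact hex t ht c _ _ _ _ _ _ _ _ h2 h1
    have one_ne : (1 : SignType) ≠ 0 := by decide
    have mone_ne : (-1 : SignType) ≠ 0 := by decide
    refine pig (X t) (Y t) (X (t + 1)) (Y (t + 1)) (fun c => if H c then 1 else -1)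
      (fun c => G t c 0 0 + 1 < G (t + 1) c 1 1 ∨ G (t + 1) c 1 1 + 1 < G t c 0 0)
      (fun c => G t c 1 1 + 1 < G (t + 1) c 0 0 ∨ G (t + 1) c 0 0 + 1 < G t c 1 1)
      (fun c => G t c 0 1 + 1 < G (t + 1) c 1 0 ∨ G (t + 1) c 1 0 + 1 < G t c 0 1)
      (fun c => G t c 1 0 + 1 < G (t + 1) c 0 1 ∨ G (t + 1) c 0 1 + 1 < G t c 1 0)
      ?_ ?_ ?_ ?_ ?_ ?_ ?_ ?_ ?_
    · rintro c (h | h)
      · rw [if_pos (Or.inl h)]; exact (r1 c h).1
      · rw [if_neg (hHno c _ _ _ _ h)]; exact (r1' c h).1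
    · rintro c (h | h)
      · rw [if_pos (Or.inr (Or.inl h))]; exact (r2 c h).1
      · rw [if_neg (hHno c _ _ _ _ h), neg_neg]; exact (r2' c h).1
    · rintro c (h | h)
      · rw [if_pos (Or.inr (Or.inr (Or.inl h)))]; exact (r3 c h).1
      · rw [if_neg (hHno c _ _ _ _ h)]; exact (r3' c h).1
    · rintro c (h | h)
      · rw [if_pos (Or.inr (Or.inr (Or.inr h)))]; exact (r4 c h).1
      · rw [if_neg (hHno c _ _ _ _ h), neg_neg]; exact (r4' c h).1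
    · rintro c ((h | h) | (h | h) | (h | h) | (h | h))
      · obtain ⟨a1, a2, a3, a4⟩ := r1 c h
        exact ⟨a1.trans a2.symm, a3, by rw [a1]; exact one_ne, a4⟩
      · obtain ⟨a1, a2, a3, a4⟩ := r1' c h
        exact ⟨a1.trans a2.symm, a3, by rw [a1]; exact mone_ne, a4⟩
      · obtain ⟨a1, a2, a3, a4⟩ := r2 c h
        exact ⟨a1.trans a2.symm, a3, by rw [a1]; exact mone_ne, a4⟩
      · obtain ⟨a1, a2, a3, a4⟩ := r2' c h
        exact ⟨a1.trans a2.symm, a3, by rw [a1]; exact one_ne, a4⟩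
      · obtain ⟨a1, a2, a3, a4⟩ := r3 c h
        exact ⟨a3, a1.trans a2.symm, a4, by rw [a1]; exact one_ne⟩
      · obtain ⟨a1, a2, a3, a4⟩ := r3' c h
        exact ⟨a3, a1.trans a2.symm, a4, by rw [a1]; exact mone_ne⟩
      · obtain ⟨a1, a2, a3, a4⟩ := r4 c h
        exact ⟨a3, a1.trans a2.symm, a4, by rw [a1]; exact mone_ne⟩
      · obtain ⟨a1, a2, a3, a4⟩ := r4' c h
        exact ⟨a3, a1.trans a2.symm, a4, by rw [a1]; exact one_ne⟩
    · obtain ⟨c, hc⟩ := hblock (A 0) (hA 0) (A 1) (hA 1) _ (hx 0 0) _ (hx 1 1)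
        (fun hm => disjoint_left.1 (hdis 0 1 l01) hm (hx 1 1)) t ht
      rcases lt_abs.1 hc with h | h
      · exact ⟨c, Or.inl (by simp only [hGdef]; linarith)⟩
      · exact ⟨c, Or.inr (by simp only [hGdef]; linarith)⟩
    · obtain ⟨c, hc⟩ := hblock (A 1) (hA 1) (A 0) (hA 0) _ (hx 1 1) _ (hx 0 0)
        (fun hm => disjoint_left.1 (hdis 0 1 l01) (hx 0 0) hm) t ht
      rcases lt_abs.1 hc with h | h
      · exact ⟨c, Or.inl (by simp only [hGdef]; linarith)⟩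
      · exact ⟨c, Or.inr (by simp only [hGdef]; linarith)⟩
    · obtain ⟨c, hc⟩ := hblock (A 0) (hA 0) (A 1) (hA 1) _ (hx 0 1) _ (hx 1 0)
        (fun hm => disjoint_left.1 (hdis 0 1 l01) hm (hx 1 0)) t ht
      rcases lt_abs.1 hc with h | h
      · exact ⟨c, Or.inl (by simp only [hGdef]; linarith)⟩
      · exact ⟨c, Or.inr (by simp only [hGdef]; linarith)⟩
    · obtain ⟨c, hc⟩ := hblock (A 1) (hA 1) (A 0) (hA 0) _ (hx 1 0) _ (hx 0 1)
        (fun hm => disjoint_left.1 (hdis 0 1 l01) (hx 0 1) hm) t ht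
      rcases lt_abs.1 hc with h | h
      · exact ⟨c, Or.inl (by simp only [hGdef]; linarith)⟩
      · exact ⟨c, Or.inr (by simp only [hGdef]; linarith)⟩
  -- ends
  have hs1 : ∀ s : SignType, s = -s → s = 0 := by decide
  have start : ∀ c, X 0 c = Y 0 c := by
    intro c
    simp only [hX, hY, hGdef]
    rw [h0 (A 1) (hA 1) _ (hx 1 1), h0 (A 0) (hA 0) _ (hx 0 0), h0 (A 1) (hA 1) _ (hx 1 0),
      h0 (A 0) (hA 0) _ (hx 0 1)]
  have hend : ∀ c, X r c = - Y r c := by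
    intro c
    have e1 := congrArg Prod.fst (congrFun (congrFun hD1 ⟨r, by omega⟩) c)
    have e2 := congrArg Prod.fst (congrFun (congrFun hD2 ⟨r, by omega⟩) c)
    have f1 := congrArg Prod.fst (hd r (by omega) c 0 1 0 1 l01 l01).1
    have f2 := congrArg Prod.fst (hd r (by omega) c 0 1 0 1 l01 l01).2
    simp only at e1 e2 f1 f2
    rw [hrr B1' b1' _ j1', hrr B1 b1 _ j1] at e1
    rw [hrr B2' b2' _ j2', hrr B2 b2 _ j2] at e2
    have g1 : X r c = SignType.sign (ss i2 c - ss i1 c) := f1.trans e1.symm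
    have g2 : Y r c = SignType.sign (ss i1 c - ss i2 c) := f2.trans e2.symm
    rw [g1, g2, ← Left.sign_neg]
    congr 1
    ring
  -- induction
  have hind : ∀ t, t ≤ r → ∃ c c', c ≠ c' ∧ Jt (X t c) (Y t c) ∧ Jt (X t c') (Y t c') := by
    intro t
    induction t with
    | zero =>
      intro _
      rcases hop 0 (by omega) with ⟨c, c', hcc, a1, a2, a3, a4⟩ | ⟨c, c', hcc, a1, a2, a3, a4⟩
      · exact ⟨c, c', hcc, a1, a3⟩
      · exfalso
        have h1 := a1.1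
        rw [start c] at h1
        exact a1.2 ((start c).trans (hs1 _ h1))
    | succ t ih =>
      intro ht
      obtain ⟨d, d', hdd, k1, k2⟩ := ih (by omega)
      rcases hop t (by omega) with ⟨c, c', hcc, a1, a2, a3, a4⟩ | ⟨c, c', hcc, a1, a2, a3, a4⟩
      · exact ⟨c, c', hcc, a2, a4⟩
      · exfalso
        have key : ∀ e, Jt (X t e) (Y t e) → It (X t e) (Y t e) → False := by
          intro e q1 q2
          have h1 := q2.1
          rw [← q1.1] at h1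
          exact q1.2 (hs1 _ h1)
        have hp : d = c ∨ d = c' ∨ d' = c ∨ d' = c' := by omega
        rcases hp with h | h | h | h
        · exact key c (h ▸ k1) a1
        · exact key c' (h ▸ k1) a3
        · exact key c (h ▸ k2) a1
        · exact key c' (h ▸ k2) a3
  obtain ⟨c, c', -, k1, -⟩ := hind r le_rfl
  have h1 := hend c
  rw [← k1.1] at h1
  exact k1.2 (hs1 _ h1)

end Pool.Agent.Helper25.UC
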